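import Pool.Agent.R269.SMSeq

/-!
A sequence generating a `c₀` spreading model without subsequences equivalent to subsequences of the
basis.
-/

set_option autoImplicit false

open Pool.Agent.R269.SM

namespace Pool.Agent.Results.MP_f04c59_an.SpreadingNotBasis

/-- For every `n ≥ 1` there is a sequence of finitely supported vectors which generates a `c₀`
spreading model in the space of order `n`, while none of its subsequences is equivalent to a
subsequence of the unit vector basis. -/
theorem result : ∀ n : ℕ, 1 ≤ n → ∃ x : ℕ → C00, C0Spreading n x ∧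
    ∀ k : ℕ → ℕ, StrictMono k → ∀ j : ℕ → ℕ, StrictMono j → (∀ m, 1 ≤ j m) →
      ¬ Equiv n (fun m => x (k m)) (fun m => e (j m)) := by
  intro n hn
  obtain ⟨k, rfl⟩ : ∃ k, n = k + 1 := ⟨n - 1, by omega⟩
  exact ⟨xs, xs_spreading k, fun κ hκ j hj hj1 => xs_not_equiv k hκ hj hj1⟩

end Pool.Agent.Results.MP_f04c59_an.SpreadingNotBasis
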